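import Pool.Agent.W12.HZ.Pre

/-! HL: auxiliary lemmas for the parametrisations, five terms. -/

set_option autoImplicit false

namespace Pool.Agent.Q194.HL.Pre4

open Polynomial Pool.Agent.W12.HZ.Pre

/-- the five term polynomial -/
noncomputable def p5 (a b c d e : ℝ) : ℝ[X] := p4 a b c d + C e * X ^ 4

theorem p5_eval (a b c d e x : ℝ) :
    (p5 a b c d e).eval x = a + b * x + c * x ^ 2 + d * x ^ 3 + e * x ^ 4 := by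
  simp [p5, p4_eval]

theorem p5_deg (a b c d e : ℝ) : (p5 a b c d e).natDegree ≤ 4 := by
  unfold p5 p4
  compute_degree

theorem mul_bd5 {q : ℝ[X]} {M : ℝ} (hq : ∀ k, |q.coeff k| ≤ M) (a b c d e : ℝ) (k : ℕ) :
    |(p5 a b c d e * q).coeff k| ≤ (|a| + |b| + |c| + |d| + |e|) * M := by
  have hM : 0 ≤ M := (abs_nonneg _).trans (hq 0)
  have e1 : p5 a b c d e * q = p4 a b c d * q + C e * X ^ 4 * q := by
    unfold p5; ring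
  rw [e1, coeff_add]
  have h0 := mul_bd hq a b c d k
  have h1 := shift_bd hM hq e 4 k
  have e2 := abs_add_le ((p4 a b c d * q).coeff k) ((C e * X ^ 4 * q).coeff k)
  linarith

theorem pow_bd5 {q : ℝ[X]} {M : ℝ} (hq : ∀ k, |q.coeff k| ≤ M) (a b c d e : ℝ) (j : ℕ) :
    ∀ k, |(p5 a b c d e ^ j * q).coeff k| ≤ (|a| + |b| + |c| + |d| + |e|) ^ j * M := by
  induction j with
  | zero => intro k; simpa using hq k
  | succ j ih =>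
    intro k
    have e1 : p5 a b c d e ^ (j + 1) * q = p5 a b c d e * (p5 a b c d e ^ j * q) := by ring
    rw [e1]
    refine (mul_bd5 ih a b c d e k).trans (le_of_eq ?_)
    ring

/-- a root near `0` -/
theorem root_near4 {p0 p1 p2 p3 p4 ρ : ℝ} (hρ : 0 ≤ ρ)
    (h : |p0| + |p2| * ρ ^ 2 + |p3| * ρ ^ 3 + |p4| * ρ ^ 4 ≤ |p1| * ρ) :
    ∃ x : ℝ, |x| ≤ ρ ∧ p0 + p1 * x + p2 * x ^ 2 + p3 * x ^ 3 + p4 * x ^ 4 = 0 := by
  have hc : ContinuousOn (fun h : ℝ => p0 + p1 * h + p2 * h ^ 2 + p3 * h ^ 3 + p4 * h ^ 4)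
      (Set.Icc (-ρ) ρ) := by fun_prop
  have hle : -ρ ≤ ρ := by linarith
  have a0 := abs_le.1 (le_refl |p0|)
  have r2 : 0 ≤ ρ ^ 2 := by positivity
  have r3 : 0 ≤ ρ ^ 3 := by positivity
  have r4 : 0 ≤ ρ ^ 4 := by positivity
  have b2 : |p2 * ρ ^ 2| = |p2| * ρ ^ 2 := by rw [abs_mul, abs_of_nonneg r2]
  have b3 : |p3 * ρ ^ 3| = |p3| * ρ ^ 3 := by rw [abs_mul, abs_of_nonneg r3]
  have b4 : |p4 * ρ ^ 4| = |p4| * ρ ^ 4 := by rw [abs_mul, abs_of_nonneg r4]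
  have c2 := abs_le.1 (le_of_eq b2)
  have c3 := abs_le.1 (le_of_eq b3)
  have c4 := abs_le.1 (le_of_eq b4)
  have n2 : p2 * (-ρ) ^ 2 = p2 * ρ ^ 2 := by ring
  have n3 : p3 * (-ρ) ^ 3 = -(p3 * ρ ^ 3) := by ring
  have n4 : p4 * (-ρ) ^ 4 = p4 * ρ ^ 4 := by ring
  rcases le_total 0 p1 with hp | hp
  · rw [abs_of_nonneg hp] at h
    have h1 : p0 + p1 * (-ρ) + p2 * (-ρ) ^ 2 + p3 * (-ρ) ^ 3 + p4 * (-ρ) ^ 4 ≤ 0 := by
      rw [n2, n3, n4]; linarith [a0.2, c2.2, c3.1, c4.2]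
    have h2 : 0 ≤ p0 + p1 * ρ + p2 * ρ ^ 2 + p3 * ρ ^ 3 + p4 * ρ ^ 4 := by
      linarith [a0.1, c2.1, c3.1, c4.1]
    obtain ⟨x, hx, hx0⟩ := intermediate_value_Icc hle hc ⟨h1, h2⟩
    exact ⟨x, abs_le.2 hx, hx0⟩
  · rw [abs_of_nonpos hp] at h
    have h1 : 0 ≤ p0 + p1 * (-ρ) + p2 * (-ρ) ^ 2 + p3 * (-ρ) ^ 3 + p4 * (-ρ) ^ 4 := by
      rw [n2, n3, n4]; linarith [a0.1, c2.1, c3.2, c4.1]
    have h2 : p0 + p1 * ρ + p2 * ρ ^ 2 + p3 * ρ ^ 3 + p4 * ρ ^ 4 ≤ 0 := by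
      linarith [a0.2, c2.2, c3.2, c4.2]
    obtain ⟨x, hx, hx0⟩ := intermediate_value_Icc' hle hc ⟨h2, h1⟩
    exact ⟨x, abs_le.2 hx, hx0⟩

/-- injectivity near `0` -/
theorem lin_low4 {a1 a2 a3 a4 z κ : ℝ}
    (h : κ + |a2| * |z| + |a3| * |z| ^ 2 + |a4| * |z| ^ 3 ≤ |a1|) :
    κ * |z| ≤ |a1 * z + a2 * z ^ 2 + a3 * z ^ 3 + a4 * z ^ 4| := by
  obtain ⟨w, hw⟩ : ∃ w, w = a1 * z + a2 * z ^ 2 + a3 * z ^ 3 + a4 * z ^ 4 := ⟨_, rfl⟩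
  rw [← hw]
  have e1 : |a1 * z| ≤ |w| + |a2 * z ^ 2| + |a3 * z ^ 3| + |a4 * z ^ 4| := by
    have : a1 * z = w + (-(a2 * z ^ 2)) + (-(a3 * z ^ 3)) + (-(a4 * z ^ 4)) := by rw [hw]; ring
    rw [this]
    have f1 := abs_add_le (w + (-(a2 * z ^ 2)) + (-(a3 * z ^ 3))) (-(a4 * z ^ 4))
    have f2 := abs_add_le (w + (-(a2 * z ^ 2))) (-(a3 * z ^ 3))
    have f3 := abs_add_le w (-(a2 * z ^ 2))
    rw [abs_neg] at f1 f2 f3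
    linarith
  rw [abs_mul, abs_mul, abs_mul, abs_mul, abs_pow, abs_pow, abs_pow] at e1
  have e2 := mul_le_mul_of_nonneg_right h (abs_nonneg z)
  have e3 : (κ + |a2| * |z| + |a3| * |z| ^ 2 + |a4| * |z| ^ 3) * |z| =
    κ * |z| + |a2| * |z| ^ 2 + |a3| * |z| ^ 3 + |a4| * |z| ^ 4 := by ring
  linarith

end Pool.Agent.Q194.HL.Pre4
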