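import Pool.Agent.Q276.HL.Stm
import Pool.Agent.Q194.HL.Pre4

/-! HL-C2R4: chart 2, real variable part, quartic forms. -/

set_option autoImplicit false

namespace Pool.Agent.Q194.HL.C2R4

open Polynomial Pool.Agent.W12.HZ.Pre Pool.Agent.Q194.HL.Pre4 Pool.Agent.Q276.HL

/-- the root near `y` -/
theorem rootA {C e A B G D E y : ℝ} (hC : 1 ≤ C) (he : 0 ≤ e) (he1 : 400 * C ^ 5 * e ≤ 1)
    (hA : |A| ≤ C) (hB : |B| ≤ C) (hG : |G| ≤ C) (hy : |y| ≤ C)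
    (hg : |A * y ^ 4 + 4 * B * y ^ 3 + 6 * G * y ^ 2 + 4 * D * y + E| ≤ e)
    (hd : 1 ≤ C * |A * y ^ 3 + 3 * B * y ^ 2 + 3 * G * y + D|) :
    ∃ r : ℝ, |r - y| ≤ C * e ∧
      A * r ^ 4 + 4 * B * r ^ 3 + 6 * G * r ^ 2 + 4 * D * r + E = 0 := by
  have hC0 : 0 < C := by linarith
  have hC5 : 1 ≤ C ^ 5 := one_le_pow₀ hC
  have he3 : 1 * e ≤ C ^ 5 * e := by gcongr
  have he2 : e ≤ 1 := by linarith
  have hCC : C * 1 ≤ C * C := by gcongr
  have hC3 : C ≤ C ^ 3 := by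
    calc C = C ^ 1 := (pow_one C).symm
      _ ≤ C ^ 3 := pow_le_pow_right₀ hC (by norm_num)
  have hC23 : C ^ 2 ≤ C ^ 3 := pow_le_pow_right₀ hC (by norm_num)
  have h2 : |6 * (A * y ^ 2 + 2 * B * y + G)| ≤ 24 * C ^ 3 := by
    have c1 : |A * y ^ 2 + 2 * B * y + G| ≤ C * C ^ 2 + 2 * C * C + C := by
      calc |A * y ^ 2 + 2 * B * y + G| ≤ |A * y ^ 2 + 2 * B * y| + |G| := abs_add_le _ _
        _ ≤ |A * y ^ 2| + |2 * B * y| + |G| := by gcongr; exact abs_add_le _ _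
        _ = |A| * |y| ^ 2 + 2 * |B| * |y| + |G| := by
          rw [abs_mul, abs_mul, abs_mul, abs_pow, abs_of_pos (by norm_num : (0 : ℝ) < 2)]
        _ ≤ C * C ^ 2 + 2 * C * C + C := by gcongr
    have c2 : C * C ^ 2 + 2 * C * C + C = C ^ 3 + 2 * C ^ 2 + C := by ring
    rw [abs_mul, abs_of_pos (by norm_num : (0 : ℝ) < 6)]
    linarith
  have h3 : |4 * (A * y + B)| ≤ 8 * C ^ 2 := by
    have c1 : |A * y + B| ≤ C * C + C := by
      calc |A * y + B| ≤ |A * y| + |B| := abs_add_le _ _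
        _ = |A| * |y| + |B| := by rw [abs_mul]
        _ ≤ C * C + C := by gcongr
    rw [abs_mul, abs_of_pos (by norm_num : (0 : ℝ) < 4), sq]
    linarith
  have t2 : |6 * (A * y ^ 2 + 2 * B * y + G)| * (C * e) ^ 2 ≤ e := by
    calc |6 * (A * y ^ 2 + 2 * B * y + G)| * (C * e) ^ 2 ≤ 24 * C ^ 3 * (C * e) ^ 2 := by gcongr
      _ = 24 * (C ^ 5 * e) * e := by ring
      _ ≤ 1 * e := by
        apply mul_le_mul_of_nonneg_right _ he
        linarith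
      _ = e := one_mul e
  have t3 : |4 * (A * y + B)| * (C * e) ^ 3 ≤ e := by
    calc |4 * (A * y + B)| * (C * e) ^ 3 ≤ 8 * C ^ 2 * (C * e) ^ 3 := by gcongr
      _ = 8 * (C ^ 5 * e) * e * e := by ring
      _ ≤ 1 * 1 * e := by
        gcongr
        linarith
      _ = e := by ring
  have t4 : |A| * (C * e) ^ 4 ≤ e := by
    calc |A| * (C * e) ^ 4 ≤ C * (C * e) ^ 4 := by gcongr
      _ = (C ^ 5 * e) * e * e * e := by ring
      _ ≤ 1 * 1 * 1 * e := by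
        gcongr
        linarith
      _ = e := by ring
  have t1 : 4 * e ≤ |4 * (A * y ^ 3 + 3 * B * y ^ 2 + 3 * G * y + D)| * (C * e) := by
    rw [abs_mul, abs_of_pos (by norm_num : (0 : ℝ) < 4)]
    calc 4 * e = 4 * (1 * e) := by ring
      _ ≤ 4 * (C * |A * y ^ 3 + 3 * B * y ^ 2 + 3 * G * y + D| * e) := by gcongr
      _ = _ := by ring
  obtain ⟨x, hx, hx0⟩ := root_near4 (p0 := A * y ^ 4 + 4 * B * y ^ 3 + 6 * G * y ^ 2 + 4 * D * y + E)
    (p1 := 4 * (A * y ^ 3 + 3 * B * y ^ 2 + 3 * G * y + D))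
    (p2 := 6 * (A * y ^ 2 + 2 * B * y + G)) (p3 := 4 * (A * y + B)) (p4 := A) (ρ := C * e)
    (by positivity) (by linarith)
  refine ⟨y + x, ?_, ?_⟩
  · have : y + x - y = x := by ring
    rw [this]; exact hx
  · linear_combination hx0

theorem c2r4 : StmtC2R4 := by
  intro C hC
  have hC0 : 0 < C := by linarith
  have hC5 : 1 ≤ C ^ 5 := one_le_pow₀ hC
  refine ⟨1 / (200 * C ^ 4), 400 * C ^ 5, by positivity, by linarith, ?_⟩
  intro S L e A B G D ι τ E y i₀ hS hL hLS he he1 hA hB hG hD hE hy hg hd hyy hτ hτL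
  choose r hr1 hr2 using fun i => rootA hC he he1 hA hB hG (hy i) (hg i) (hd i)
  intro m
  have he3 : 1 * e ≤ C ^ 5 * e := by gcongr
  have he2 : e ≤ 1 := by linarith
  have hCe : C * e ≤ 1 / (400 * C ^ 4) := by
    rw [le_div_iff₀ (by positivity)]
    calc C * e * (400 * C ^ 4) = 400 * C ^ 5 * e := by ring
      _ ≤ 1 := he1
  have hCe' : C * e ≤ C := by
    calc C * e ≤ C * 1 := by gcongr
      _ = C := mul_one C
  obtain ⟨y0, hy0def⟩ : ∃ y0, y0 = r i₀ := ⟨_, rfl⟩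
  have hy0y : |y0 - y i₀| ≤ C * e := by rw [hy0def]; exact hr1 i₀
  have hy0 : |y0| ≤ 2 * C := by
    have e1 : y0 = (y0 - y i₀) + y i₀ := by ring
    calc |y0| = |(y0 - y i₀) + y i₀| := by rw [← e1]
      _ ≤ |y0 - y i₀| + |y i₀| := abs_add_le _ _
      _ ≤ 2 * C := by linarith [hy i₀]
  obtain ⟨a1, ha1⟩ : ∃ a1, a1 = 4 * (A * y0 ^ 3 + 3 * B * y0 ^ 2 + 3 * G * y0 + D) := ⟨_, rfl⟩
  obtain ⟨a2, ha2⟩ : ∃ a2, a2 = 6 * (A * y0 ^ 2 + 2 * B * y0 + G) := ⟨_, rfl⟩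
  obtain ⟨a3, ha3⟩ : ∃ a3, a3 = 4 * (A * y0 + B) := ⟨_, rfl⟩
  have h4 : (0 : ℝ) < 4 := by norm_num
  have hCC1 : C ≤ C ^ 2 := by
    calc C = C ^ 1 := (pow_one C).symm
      _ ≤ C ^ 2 := pow_le_pow_right₀ hC (by norm_num)
  have hCC2 : C ^ 2 ≤ C ^ 3 := pow_le_pow_right₀ hC (by norm_num)
  have hCC3 : C ^ 3 ≤ C ^ 4 := pow_le_pow_right₀ hC (by norm_num)
  have hCC4 : C ^ 4 ≤ C ^ 5 := pow_le_pow_right₀ hC (by norm_num)
  have b1 : |a1| ≤ 108 * C ^ 4 := by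
    rw [ha1, abs_mul, abs_of_pos h4]
    have c1 : |A * y0 ^ 3 + 3 * B * y0 ^ 2 + 3 * G * y0 + D| ≤
        C * (2 * C) ^ 3 + 3 * C * (2 * C) ^ 2 + 3 * C * (2 * C) + C := by
      calc |A * y0 ^ 3 + 3 * B * y0 ^ 2 + 3 * G * y0 + D|
          ≤ |A * y0 ^ 3 + 3 * B * y0 ^ 2 + 3 * G * y0| + |D| := abs_add_le _ _
        _ ≤ |A * y0 ^ 3 + 3 * B * y0 ^ 2| + |3 * G * y0| + |D| := by gcongr; exact abs_add_le _ _
        _ ≤ |A * y0 ^ 3| + |3 * B * y0 ^ 2| + |3 * G * y0| + |D| := by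
          gcongr; exact abs_add_le _ _
        _ = |A| * |y0| ^ 3 + 3 * |B| * |y0| ^ 2 + 3 * |G| * |y0| + |D| := by
          simp only [abs_mul, abs_pow, abs_of_pos (by norm_num : (0 : ℝ) < 3)]
        _ ≤ _ := by gcongr
    have c2 : C * (2 * C) ^ 3 + 3 * C * (2 * C) ^ 2 + 3 * C * (2 * C) + C =
      8 * C ^ 4 + 12 * C ^ 3 + 6 * C ^ 2 + C := by ring
    linarith
  have b2 : |a2| ≤ 54 * C ^ 3 := by
    rw [ha2, abs_mul, abs_of_pos (by norm_num : (0 : ℝ) < 6)]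
    have c1 : |A * y0 ^ 2 + 2 * B * y0 + G| ≤ C * (2 * C) ^ 2 + 2 * C * (2 * C) + C := by
      calc |A * y0 ^ 2 + 2 * B * y0 + G| ≤ |A * y0 ^ 2 + 2 * B * y0| + |G| := abs_add_le _ _
        _ ≤ |A * y0 ^ 2| + |2 * B * y0| + |G| := by gcongr; exact abs_add_le _ _
        _ = |A| * |y0| ^ 2 + 2 * |B| * |y0| + |G| := by
          rw [abs_mul, abs_mul, abs_mul, abs_pow, abs_of_pos (by norm_num : (0 : ℝ) < 2)]
        _ ≤ C * (2 * C) ^ 2 + 2 * C * (2 * C) + C := by gcongr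
    have c2 : C * (2 * C) ^ 2 + 2 * C * (2 * C) + C = 4 * C ^ 3 + 4 * C ^ 2 + C := by ring
    linarith
  have b3 : |a3| ≤ 12 * C ^ 2 := by
    rw [ha3, abs_mul, abs_of_pos h4]
    have c1 : |A * y0 + B| ≤ C * (2 * C) + C := by
      calc |A * y0 + B| ≤ |A * y0| + |B| := abs_add_le _ _
        _ = |A| * |y0| + |B| := by rw [abs_mul]
        _ ≤ _ := by gcongr
    have c2 : C * (2 * C) + C = 2 * C ^ 2 + C := by ring
    linarith
  have b5 : 2 ≤ C * |a1| := by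
    obtain ⟨g0, hg0⟩ : ∃ g0, g0 = A * y0 ^ 3 + 3 * B * y0 ^ 2 + 3 * G * y0 + D := ⟨_, rfl⟩
    have c1 : |A * y i₀ ^ 3 + 3 * B * y i₀ ^ 2 + 3 * G * y i₀ + D| ≤ |g0| +
        C * e * (19 * C ^ 3) := by
      have c2 : A * y i₀ ^ 3 + 3 * B * y i₀ ^ 2 + 3 * G * y i₀ + D = g0 +
          (-(y0 - y i₀)) * (A * (y0 ^ 2 + y0 * y i₀ + y i₀ ^ 2) + 3 * B * (y0 + y i₀) + 3 * G) := by
        rw [hg0]; ring
      have c3 : |A * (y0 ^ 2 + y0 * y i₀ + y i₀ ^ 2) + 3 * B * (y0 + y i₀) + 3 * G| ≤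
          19 * C ^ 3 := by
        have c4 : |y0 + y i₀| ≤ 3 * C := (abs_add_le _ _).trans (by linarith [hy i₀])
        have c5 : |y0 ^ 2 + y0 * y i₀ + y i₀ ^ 2| ≤ 7 * C ^ 2 := by
          calc |y0 ^ 2 + y0 * y i₀ + y i₀ ^ 2| ≤ |y0 ^ 2 + y0 * y i₀| + |y i₀ ^ 2| := abs_add_le _ _
            _ ≤ |y0 ^ 2| + |y0 * y i₀| + |y i₀ ^ 2| := by gcongr; exact abs_add_le _ _
            _ = |y0| ^ 2 + |y0| * |y i₀| + |y i₀| ^ 2 := by rw [abs_pow, abs_mul, abs_pow]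
            _ ≤ (2 * C) ^ 2 + (2 * C) * C + C ^ 2 := by
              have := hy i₀
              gcongr
            _ = 7 * C ^ 2 := by ring
        calc |A * (y0 ^ 2 + y0 * y i₀ + y i₀ ^ 2) + 3 * B * (y0 + y i₀) + 3 * G|
            ≤ |A * (y0 ^ 2 + y0 * y i₀ + y i₀ ^ 2) + 3 * B * (y0 + y i₀)| + |3 * G| :=
              abs_add_le _ _
          _ ≤ |A * (y0 ^ 2 + y0 * y i₀ + y i₀ ^ 2)| + |3 * B * (y0 + y i₀)| + |3 * G| := by
              gcongr; exact abs_add_le _ _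
          _ = |A| * |y0 ^ 2 + y0 * y i₀ + y i₀ ^ 2| + 3 * |B| * |y0 + y i₀| + 3 * |G| := by
              simp only [abs_mul, abs_of_pos (by norm_num : (0 : ℝ) < 3)]
          _ ≤ C * (7 * C ^ 2) + 3 * C * (3 * C) + 3 * C := by gcongr
          _ = 7 * C ^ 3 + 9 * C ^ 2 + 3 * C := by ring
          _ ≤ 19 * C ^ 3 := by linarith
      rw [c2]
      refine (abs_add_le _ _).trans ?_
      rw [abs_mul, abs_neg]
      gcongr
    have c5 : C * (C * e * (19 * C ^ 3)) ≤ 1 / 2 := by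
      have : C * (C * e * (19 * C ^ 3)) = 19 * (C ^ 5 * e) := by ring
      rw [this]; linarith
    have c6 : C * |A * y i₀ ^ 3 + 3 * B * y i₀ ^ 2 + 3 * G * y i₀ + D| ≤
        C * (|g0| + C * e * (19 * C ^ 3)) := by gcongr
    have c7 := hd i₀
    rw [ha1, abs_mul, abs_of_pos h4, ← hg0]
    have c8 : C * (|g0| + C * e * (19 * C ^ 3)) = C * |g0| + C * (C * e * (19 * C ^ 3)) := by ring
    linarith
  have hz : ∀ i, |r i - y0| ≤ 1 / (100 * C ^ 4) := by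
    intro i
    have e1 : r i - y0 = (r i - y i) + (y i - y i₀) + (-(y0 - y i₀)) := by ring
    have e2 : 1 / (100 * C ^ 4) = 1 / (400 * C ^ 4) + 1 / (200 * C ^ 4) + 1 / (400 * C ^ 4) := by
      field_simp; norm_num
    calc |r i - y0| = |(r i - y i) + (y i - y i₀) + (-(y0 - y i₀))| := by rw [← e1]
      _ ≤ |(r i - y i) + (y i - y i₀)| + |-(y0 - y i₀)| := abs_add_le _ _
      _ ≤ |r i - y i| + |y i - y i₀| + |-(y0 - y i₀)| := by gcongr; exact abs_add_le _ _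
      _ = |r i - y i| + |y i - y i₀| + |y0 - y i₀| := by rw [abs_neg (y0 - y i₀)]
      _ ≤ 1 / (100 * C ^ 4) := by linarith [hr1 i, hyy i i₀]
  have hrel : ∀ i, (τ i : ℝ) = S * (-(a1 * (r i - y0) + a2 * (r i - y0) ^ 2 +
      a3 * (r i - y0) ^ 3 + A * (r i - y0) ^ 4)) := by
    intro i
    rw [hτ i, ha1, ha2, ha3]
    have h1 := hr2 i
    have h2 := hr2 i₀
    rw [← hy0def] at h2
    linear_combination S * h1 - S * h2
  have hzL : ∀ i, |r i - y0| ≤ C * (L / S) := by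
    intro i
    have hz1 := hz i
    have hcond : 1 / C + |a2| * |r i - y0| + |a3| * |r i - y0| ^ 2 + |A| * |r i - y0| ^ 3 ≤
        |a1| := by
      have d1 : 0 < 1 / C := by positivity
      have d2 : 1 / C ^ 5 ≤ 1 := by
        rw [div_le_one (by positivity)]; exact hC5
      have d3 : 1 / C ^ 10 ≤ 1 := by
        rw [div_le_one (by positivity)]; exact one_le_pow₀ hC
      have c1 : |a2| * |r i - y0| ≤ 54 * C ^ 3 * (1 / (100 * C ^ 4)) := by gcongr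
      have c2 : 54 * C ^ 3 * (1 / (100 * C ^ 4)) = 54 / 100 * (1 / C) := by field_simp
      have c3 : |a3| * |r i - y0| ^ 2 ≤ 12 * C ^ 2 * (1 / (100 * C ^ 4)) ^ 2 := by gcongr
      have c4 : 12 * C ^ 2 * (1 / (100 * C ^ 4)) ^ 2 = 12 / 10000 * (1 / C) * (1 / C ^ 5) := by
        field_simp; norm_num
      have c5 : |A| * |r i - y0| ^ 3 ≤ C * (1 / (100 * C ^ 4)) ^ 3 := by gcongr
      have c6 : C * (1 / (100 * C ^ 4)) ^ 3 = 1 / 1000000 * (1 / C) * (1 / C ^ 10) := by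
        field_simp; norm_num
      have c7 : 12 / 10000 * (1 / C) * (1 / C ^ 5) ≤ 12 / 10000 * (1 / C) * 1 := by gcongr
      have c8 : 1 / 1000000 * (1 / C) * (1 / C ^ 10) ≤ 1 / 1000000 * (1 / C) * 1 := by gcongr
      have c9 : 2 * (1 / C) ≤ |a1| := by
        rw [mul_one_div, div_le_iff₀ hC0]
        linarith
      linarith
    have h1 := lin_low4 hcond
    have h2 : |a1 * (r i - y0) + a2 * (r i - y0) ^ 2 + a3 * (r i - y0) ^ 3 +
        A * (r i - y0) ^ 4| ≤ L / S := by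
      rw [le_div_iff₀ hS]
      have h3 := hτL i
      rw [hrel i, abs_mul, abs_neg, abs_of_pos hS] at h3
      linarith
    have h5 : 1 / C * |r i - y0| ≤ L / S := h1.trans h2
    calc |r i - y0| = C * (1 / C * |r i - y0|) := by field_simp
      _ ≤ C * (L / S) := by gcongr
  have hC₄ : C ≤ 400 * C ^ 5 := by linarith
  have hC41 : 1 ≤ 400 * C ^ 5 := by linarith
  have hLS0 : 0 ≤ L / S := by positivity
  refine ⟨fun j => p5 0 (-a1) (-a2) (-a3) (-A) ^ (j : ℕ), y0, 1, fun _ => 1, fun i => r i - y0,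
    fun i => y i - r i, ?_, ?_, ?_, ?_, ?_, ?_, ?_, ?_, ?_⟩
  · intro j
    refine (natDegree_pow_le_of_le (j : ℕ) (p5_deg _ _ _ _ _)).trans ?_
    have := j.2
    omega
  · intro j k
    have h1 := pow_bd5 one_bd 0 (-a1) (-a2) (-a3) (-A) (j : ℕ) k
    rw [mul_one] at h1
    refine h1.trans ?_
    rw [mul_one, abs_zero, abs_neg, abs_neg, abs_neg, abs_neg, zero_add]
    have h2 : |a1| + |a2| + |a3| + |A| ≤ 400 * C ^ 5 := by linarith
    calc (|a1| + |a2| + |a3| + |A|) ^ (j : ℕ) ≤ (400 * C ^ 5) ^ (j : ℕ) := by gcongr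
      _ ≤ (400 * C ^ 5) ^ m := pow_le_pow_right₀ hC41 j.2.le
  · linarith
  · rw [abs_one]; exact hC41
  · intro i
    rw [mul_one]
    exact one_le_pow₀ hC41
  · intro i
    refine (hzL i).trans ?_
    gcongr
  · intro i
    show |y i - r i| ≤ _
    rw [abs_sub_comm]
    refine (hr1 i).trans ?_
    gcongr
  · intro i j
    show 1 * (τ i : ℝ) ^ (j : ℕ) = S ^ (j : ℕ) *
      (p5 0 (-a1) (-a2) (-a3) (-A) ^ (j : ℕ)).eval (r i - y0)
    rw [eval_pow, p5_eval, ← mul_pow, one_mul, hrel i]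
    congr 1
    ring
  · intro i
    show y i = y0 + 1 * (r i - y0) + (y i - r i)
    ring

end Pool.Agent.Q194.HL.C2R4
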